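import Pool.Agent.MNW.StmtsA

/-!
# Squad MNW, row SVW (copy of Helper70_MNV/SPV.lean): the roots generate a field of bounded degree
-/

set_option autoImplicit false

namespace Pool.Agent.MNW.H41

open Polynomial NumberField Pool.Agent.MNT Pool.Agent.MNW

theorem finrank_splittingField_le {K : Type} [Field K] [CharZero K] (F : K[X]) :
    Module.finrank K F.SplittingField ≤ F.natDegree.factorial := by
  have : IsGalois K F.SplittingField := IsGalois.mk
  rw [← IsGalois.card_aut_eq_finrank K F.SplittingField]
  have : Fact ((F.map (algebraMap K F.SplittingField)).Splits) := ⟨SplittingField.splits F⟩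
  have h := Gal.galActionHom_injective F F.SplittingField
  have : Finite (F.rootSet F.SplittingField) := inferInstance
  have h1 := Nat.card_le_card_of_injective _ h
  have h2 : Nat.card (F.rootSet F.SplittingField) ≤ F.natDegree := by
    classical
    have h3 : F.rootSet F.SplittingField = ((F.aroots F.SplittingField).toFinset : Set _) := by
      rw [rootSet_def]
    rw [h3, Nat.card_coe_set_eq, Set.ncard_coe_finset]
    refine (Multiset.toFinset_card_le _).trans ?_
    rw [aroots_def]
    exact (card_roots' _).trans natDegree_map_le
  rw [Nat.card_perm] at h1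
  exact h1.trans (Nat.factorial_le h2)

theorem numberField_of_finite (K E : Type) [Field K] [NumberField K] [Field E] [Algebra K E]
    [FiniteDimensional K E] : NumberField E := by
  have : CharZero E := charZero_of_injective_algebraMap (algebraMap K E).injective
  exact NumberField.mk (to_finiteDimensional := FiniteDimensional.trans ℚ K E)

theorem svw : SvwStmt := by
  intro g m K _ _ C hC
  obtain ⟨hdeg, E', _, _, _, e', θ', x, hfe, hcfg⟩ := hC
  have hf0 : C.f ≠ 0 := by
    intro h
    rw [h, natDegree_zero] at hdeg
    omega
  have hmon : (∏ j, (X - Polynomial.C (θ' j)) : E'[X]).Monic :=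
    monic_prod_of_monic _ _ fun j _ => monic_X_sub_C _
  have he' : algebraMap K E' C.f.leadingCoeff = e' := by
    have h1 := congrArg leadingCoeff hfe
    rw [leadingCoeff_map, leadingCoeff_mul, leadingCoeff_C, hmon.leadingCoeff, mul_one] at h1
    exact h1
  have hsp : (C.f.map (algebraMap K E')).Splits := by
    rw [hfe]
    exact (Splits.C _).mul (Splits.prod fun j _ => Splits.X_sub_C _)
  have hroot : ∀ j, θ' j ∈ C.f.rootSet E' := by
    intro j
    rw [mem_rootSet]
    refine ⟨hf0, ?_⟩
    rw [aeval_def, ← eval_map, hfe, eval_mul, eval_prod]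
    rw [Finset.prod_eq_zero (Finset.mem_univ j) (by simp), mul_zero]
  let E₀ : IntermediateField K E' := IntermediateField.adjoin K (C.f.rootSet E')
  have hSF : C.f.IsSplittingField K E₀ := IntermediateField.adjoin_rootSet_isSplittingField hsp
  have hfin : FiniteDimensional K E₀ := IsSplittingField.finiteDimensional E₀ C.f
  have hnf : NumberField E₀ := numberField_of_finite K E₀
  have hrank : Module.finrank K E₀ ≤ (2 * g + 1).factorial := by
    rw [(IsSplittingField.algEquiv E₀ C.f).toLinearEquiv.finrank_eq, ← hdeg]
    exact finrank_splittingField_le C.f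
  refine ⟨E₀, inferInstance, hnf, inferInstance, algebraMap K E₀ C.f.leadingCoeff,
    fun j => ⟨θ' j, IntermediateField.subset_adjoin _ _ (hroot j)⟩, ?_, ?_, ?_⟩
  · rw [← Module.finrank_mul_finrank ℚ K E₀]
    exact Nat.mul_le_mul le_rfl hrank
  · apply Polynomial.map_injective (algebraMap E₀ E') (algebraMap E₀ E').injective
    rw [Polynomial.map_map, ← IsScalarTower.algebraMap_eq K E₀ E', hfe, Polynomial.map_mul,
      Polynomial.map_prod, map_C, ← IsScalarTower.algebraMap_apply K E₀ E', he']
    congr 1
    refine Finset.prod_congr rfl fun j _ => ?_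
    rw [Polynomial.map_sub, map_X, map_C]
    rfl
  · refine ⟨E', inferInstance, inferInstance, inferInstance, x, ?_⟩
    rw [← IsScalarTower.algebraMap_apply K E₀ E', he']
    exact hcfg

end Pool.Agent.MNW.H41
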